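import Mathlib
import Pool.Agent.Helper29_CF.Defs
import Pool.Agent.Helper29_CF.Stmt

/-!
Squad `cf`, module CNT8: counting for `r ≥ 8`.
-/

namespace Pool.Agent.Helper29_CF.H2

open Finset Pool.Agent.Helper29_CF

set_option linter.unusedSectionVars false

section

variable {V B : Type} [Fintype V] [DecidableEq V] [Fintype B] [DecidableEq B]

theorem split3 (s : B → Finset V) (hc : ∀ b, (s b).card = 3) (S : Finset B) (w : B → ℝ) :
    ∑ x, ∑ b ∈ S.filter (fun b => x ∈ s b), w b = 3 * ∑ b ∈ S, w b := by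
  simp_rw [sum_filter]
  rw [sum_comm, mul_sum]
  apply sum_congr rfl
  intro b _
  rw [← sum_filter]
  have : (univ.filter (fun x => x ∈ s b)) = s b := by ext x; simp
  rw [this, sum_const, hc b]
  simp

theorem split3card (s : B → Finset V) (hc : ∀ b, (s b).card = 3) (S : Finset B) :
    ∑ x, ((S.filter (fun b => x ∈ s b)).card : ℝ) = 3 * (S.card : ℝ) := by
  have := split3 s hc S (fun _ => (1 : ℝ))
  simpa using this

/-- swap of the incidences between a set of points and a set of blocks -/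
theorem swapPts (s : B → Finset V) (S : Finset B) (P : Finset V) :
    ∑ x ∈ P, (S.filter (fun b => x ∈ s b)).card = ∑ b ∈ S, (s b ∩ P).card := by
  have h1 : ∀ x, (S.filter (fun b => x ∈ s b)).card = ∑ b ∈ S, if x ∈ s b then 1 else 0 := by
    intro x; rw [card_filter]
  simp_rw [h1]
  rw [sum_comm]
  apply sum_congr rfl
  intro b _
  rw [← card_filter]
  congr 1
  ext x
  simp [and_comm]

theorem sum_biUnion_le' {ι κ : Type} [DecidableEq ι] [DecidableEq κ] (S : Finset ι)
    (t : ι → Finset κ) (f : κ → ℕ) :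
    ∑ x ∈ S.biUnion t, f x ≤ ∑ i ∈ S, ∑ x ∈ t i, f x := by
  induction S using Finset.induction_on with
  | empty => simp
  | insert a S ha ih =>
    rw [biUnion_insert, sum_insert ha]
    have := sum_union_inter (s₁ := t a) (s₂ := S.biUnion t) (f := f)
    omega

/-- at most one fixed line in a live Pasch -/
theorem fixedLine_le_one {s : B → Finset V} {r : ℕ} {z : B → ℝ} {𝓛 : Finset (Finset B)}
    (hr : 7 ≤ r) (h : CntHyp s r z 𝓛) {L : Finset B} (hL : L ∈ 𝓛) :
    (L.filter (fun b => z b = 1)).card ≤ 1 := by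
  by_contra hcon
  push Not at hcon
  have h1 : (∑ b ∈ L, z b) = 12 / (r : ℝ) := h.row L hL
  have h2 : ∑ b ∈ L.filter (fun b => z b = 1), z b ≤ ∑ b ∈ L, z b :=
    sum_le_sum_of_subset_of_nonneg (filter_subset _ _) (fun b _ _ => (h.bd b).1)
  have h3 : ∑ b ∈ L.filter (fun b => z b = 1), z b = ((L.filter (fun b => z b = 1)).card : ℝ) := by
    rw [sum_congr rfl (fun b hb => (mem_filter.1 hb).2)]
    simp
  have h4 : (2 : ℝ) ≤ ((L.filter (fun b => z b = 1)).card : ℝ) := by exact_mod_cast hcon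
  have h5 : (12 : ℝ) / (r : ℝ) < 2 := by
    have : (7 : ℝ) ≤ (r : ℝ) := by exact_mod_cast hr
    rw [div_lt_iff₀ (by linarith)]
    linarith
  linarith

theorem cnt8 : Cnt8Stmt := by
  intro V B _ _ _ _ s r z 𝓛 hr h hne
  set Fl : Finset B := univ.filter (fun b => z b ≠ 0 ∧ z b ≠ 1) with hFl
  set A : Finset V := univ.filter (fun x => 3 ≤ deg s Fl x) with hA
  set LB : Finset B := 𝓛.biUnion id with hLB
  set O1 : Finset B := LB.filter (fun b => z b = 1) with hO1
  set O2 : Finset B := (univ \ LB).filter (fun b => z b = 1) with hO2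
  set VL : Finset V := famPts s 𝓛 with hVL
  have hc := h.card3
  -- the local inequality
  have hloc : ∀ x, -(((O1.filter (fun b => x ∈ s b)).card : ℝ) +
      (if x ∈ VL then ((O2.filter (fun b => x ∈ s b)).card : ℝ) else 0)) / 3 ≤
      (∑ b ∈ (Fl \ LB).filter (fun b => x ∈ s b), (1 - z b) +
        ∑ b ∈ Fl.filter (fun b => x ∈ s b), z b) / 3 - (if x ∈ A then (1 : ℝ) else 0) := by
    intro x
    have n1 : (0 : ℝ) ≤ ((O1.filter (fun b => x ∈ s b)).card : ℝ) := Nat.cast_nonneg _
    have n2 : (0 : ℝ) ≤ ((O2.filter (fun b => x ∈ s b)).card : ℝ) := Nat.cast_nonneg _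
    have n3 : (0 : ℝ) ≤ ∑ b ∈ (Fl \ LB).filter (fun b => x ∈ s b), (1 - z b) :=
      sum_nonneg (fun b _ => by linarith [(h.bd b).2])
    have n4 : (0 : ℝ) ≤ ∑ b ∈ Fl.filter (fun b => x ∈ s b), z b :=
      sum_nonneg (fun b _ => (h.bd b).1)
    by_cases hxA : x ∈ A
    · rw [if_pos hxA]
      have hx3 : 3 ≤ deg s Fl x := (mem_filter.1 hxA).2
      by_cases hxV : x ∈ VL
      · rw [if_pos hxV]
        have hs := h.act x hx3
        -- split the star
        have e1 : ∑ b ∈ univ.filter (fun b => x ∈ s b), z b =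
            ∑ b ∈ Fl.filter (fun b => x ∈ s b), z b +
              (((O1.filter (fun b => x ∈ s b)).card : ℝ) +
                ((O2.filter (fun b => x ∈ s b)).card : ℝ)) := by
          have e2 : ∀ b, z b = (if b ∈ Fl then z b else 0) + ((if b ∈ O1 then (1:ℝ) else 0) +
              (if b ∈ O2 then (1:ℝ) else 0)) := by
            intro b
            by_cases h0 : z b = 0
            · have a1 : b ∉ Fl := by simp [hFl, h0]
              have a2 : b ∉ O1 := by simp [hO1, h0]
              have a3 : b ∉ O2 := by simp [hO2, h0]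
              simp [a1, a2, a3, h0]
            · by_cases h1 : z b = 1
              · have a1 : b ∉ Fl := by simp [hFl, h1]
                by_cases hb : b ∈ LB
                · have a2 : b ∈ O1 := by simp [hO1, h1, hb]
                  have a3 : b ∉ O2 := by simp [hO2, hb]
                  simp [a1, a2, a3, h1]
                · have a2 : b ∉ O1 := by simp [hO1, hb]
                  have a3 : b ∈ O2 := by simp [hO2, hb, h1]
                  simp [a1, a2, a3, h1]
              · have a1 : b ∈ Fl := by simp [hFl, h0, h1]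
                have a2 : b ∉ O1 := by simp [hO1, h1]
                have a3 : b ∉ O2 := by simp [hO2, h1]
                simp [a1, a2, a3]
          have e3 : ∀ (S : Finset B) (w : B → ℝ), ∑ b ∈ univ.filter (fun b => x ∈ s b),
              (if b ∈ S then w b else 0) = ∑ b ∈ S.filter (fun b => x ∈ s b), w b := by
            intro S w
            rw [← sum_filter]
            apply sum_congr _ (fun _ _ => rfl)
            ext b; simp [and_comm]
          rw [sum_congr rfl (fun b _ => e2 b), sum_add_distrib, sum_add_distrib, e3, e3, e3]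
          simp
        rw [e1] at hs
        linarith
      · rw [if_neg hxV]
        -- all floats at x are not live
        have e1 : (Fl \ LB).filter (fun b => x ∈ s b) = Fl.filter (fun b => x ∈ s b) := by
          ext b
          simp only [mem_filter, mem_sdiff]
          constructor
          · rintro ⟨⟨h1, _⟩, h2⟩; exact ⟨h1, h2⟩
          · rintro ⟨h1, h2⟩
            refine ⟨⟨h1, ?_⟩, h2⟩
            intro hb
            apply hxV
            rw [hLB, mem_biUnion] at hb
            obtain ⟨L, hL, hbL⟩ := hb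
            rw [hVL, famPts, mem_biUnion]
            exact ⟨L, hL, mem_biUnion.2 ⟨b, hbL, h2⟩⟩
        rw [e1, ← sum_add_distrib]
        have e2 : ∑ b ∈ Fl.filter (fun b => x ∈ s b), (1 - z b + z b) = (deg s Fl x : ℝ) := by
          simp [deg]
        rw [e2]
        have : (3 : ℝ) ≤ (deg s Fl x : ℝ) := by exact_mod_cast hx3
        linarith
    · rw [if_neg hxA]
      have : (0 : ℝ) ≤ (if x ∈ VL then ((O2.filter (fun b => x ∈ s b)).card : ℝ) else 0) := by
        split_ifs <;> simp
      linarith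
  -- sum it up
  have hsum := sum_le_sum (fun x (_ : x ∈ (univ : Finset V)) => hloc x)
  rw [sum_sub_distrib, ← sum_div, ← sum_div, sum_neg_distrib, sum_add_distrib, sum_add_distrib,
    split3card s hc, split3 s hc, split3 s hc] at hsum
  have hAc : ∑ x, (if x ∈ A then (1 : ℝ) else 0) = (A.card : ℝ) := by simp
  rw [hAc] at hsum
  -- cardinality of O1
  have hO1c : O1.card ≤ 𝓛.card := by
    have : O1 = 𝓛.biUnion (fun L => L.filter (fun b => z b = 1)) := by
      ext b
      simp only [hO1, hLB, mem_filter, mem_biUnion, id]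
      constructor
      · rintro ⟨⟨L, hL, hb⟩, h1⟩; exact ⟨L, hL, hb, h1⟩
      · rintro ⟨L, hL, hb, h1⟩; exact ⟨⟨L, hL, hb⟩, h1⟩
    rw [this]
    calc _ ≤ ∑ L ∈ 𝓛, (L.filter (fun b => z b = 1)).card := card_biUnion_le
      _ ≤ ∑ L ∈ 𝓛, 1 := sum_le_sum (fun L hL => fixedLine_le_one (by omega) h hL)
      _ = 𝓛.card := by simp
  -- incidences with O2
  have hO2c : ∑ x, (if x ∈ VL then ((O2.filter (fun b => x ∈ s b)).card : ℝ) else 0) ≤
      (𝓛.card : ℝ) := by
    have e1 : ∑ x, (if x ∈ VL then ((O2.filter (fun b => x ∈ s b)).card : ℝ) else 0) =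
        ((∑ x ∈ VL, (O2.filter (fun b => x ∈ s b)).card : ℕ) : ℝ) := by
      push_cast
      rw [← sum_filter]
      apply sum_congr _ (fun _ _ => rfl)
      ext x; simp
    rw [e1]
    have e2 : ∑ x ∈ VL, (O2.filter (fun b => x ∈ s b)).card ≤
        ∑ L ∈ 𝓛, ∑ x ∈ pts s L, (O2.filter (fun b => x ∈ s b)).card := by
      rw [hVL, famPts]
      exact sum_biUnion_le' _ _ _
    have e3 : ∀ L ∈ 𝓛, ∑ x ∈ pts s L, (O2.filter (fun b => x ∈ s b)).card ≤ 1 := by
      intro L hL
      rw [swapPts]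
      have hb1 : ∀ b ∈ O2, b ∉ L := by
        intro b hb hbL
        have hb' := (mem_sdiff.1 (mem_filter.1 hb).1).2
        exact hb' (mem_biUnion.2 ⟨L, hL, hbL⟩)
      have hle : ∀ b ∈ O2, (s b ∩ pts s L).card ≤ 1 := fun b hb =>
        (h.bad L hL).2.1 b (hb1 b hb)
      have hun : ∀ b ∈ O2, ∀ b' ∈ O2, ¬ Disjoint (s b) (pts s L) →
          ¬ Disjoint (s b') (pts s L) → b = b' := by
        intro b hb b' hb' hd hd'
        by_contra hbb
        have q : ∀ b ∈ O2, z b = 1 ∧ ∀ L' ∈ 𝓛, b ∉ L' := by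
          intro b hb
          refine ⟨(mem_filter.1 hb).2, fun L' hL' hbL' => ?_⟩
          exact (mem_sdiff.1 (mem_filter.1 hb).1).2 (mem_biUnion.2 ⟨L', hL', hbL'⟩)
        exact h.noA L hL b b' hbb ⟨(q b hb).1, hb1 b hb, hd, (q b hb).2⟩
          ⟨(q b' hb').1, hb1 b' hb', hd', (q b' hb').2⟩
      by_cases hex : ∃ b ∈ O2, ¬ Disjoint (s b) (pts s L)
      · obtain ⟨b0, hb0, hd0⟩ := hex
        rw [sum_eq_single_of_mem b0 hb0]
        · exact hle b0 hb0
        · intro b hb hne'
          rw [card_eq_zero, ← disjoint_iff_inter_eq_empty]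
          by_contra hd
          exact hne' (hun b hb b0 hb0 hd hd0)
      · push Not at hex
        rw [sum_eq_zero]
        · exact Nat.zero_le _
        · intro b hb
          rw [card_eq_zero, ← disjoint_iff_inter_eq_empty]
          exact hex b hb
    have e4 : ∑ L ∈ 𝓛, ∑ x ∈ pts s L, (O2.filter (fun b => x ∈ s b)).card ≤ 𝓛.card := by
      calc _ ≤ ∑ L ∈ 𝓛, 1 := sum_le_sum e3
        _ = 𝓛.card := by simp
    exact_mod_cast e2.trans e4
  -- live lines
  have hlive : ∑ b ∈ Fl ∩ LB, (1 - z b) = (𝓛.card : ℝ) * (4 - 12 / (r : ℝ)) := by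
    have e1 : ∑ b ∈ Fl ∩ LB, (1 - z b) = ∑ b ∈ LB, (1 - z b) := by
      apply sum_subset inter_subset_right
      intro b hb hnb
      have hbF : b ∉ Fl := fun hbF => hnb (mem_inter.2 ⟨hbF, hb⟩)
      obtain ⟨L, hL, hbL⟩ := mem_biUnion.1 hb
      have h0 := h.pos L hL b hbL
      have h1 : z b = 1 := by
        by_contra h1
        exact hbF (by simp [hFl, h0, h1])
      rw [h1]; simp
    rw [e1, hLB, sum_biUnion]
    · have e2 : ∀ L ∈ 𝓛, ∑ b ∈ id L, (1 - z b) = 4 - 12 / (r : ℝ) := by
        intro L hL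
        rw [id, sum_sub_distrib, h.row L hL]
        simp [(h.bad L hL).1.1]
      rw [sum_congr rfl e2, sum_const, nsmul_eq_mul]
    · intro L hL L' hL' hne'
      exact (h.bad L hL).2.2 L' (h.bad L' hL').1 (Ne.symm hne')
  have hFlc : (Fl.card : ℝ) = ∑ b ∈ Fl ∩ LB, (1 - z b) + (∑ b ∈ Fl \ LB, (1 - z b) +
      ∑ b ∈ Fl, z b) := by
    have e1 : ∑ b ∈ Fl, (1 - z b) = ∑ b ∈ Fl ∩ LB, (1 - z b) + ∑ b ∈ Fl \ LB, (1 - z b) := by
      rw [← sum_inter_add_sum_sdiff Fl LB]
    have e2 : (Fl.card : ℝ) = ∑ b ∈ Fl, (1 - z b) + ∑ b ∈ Fl, z b := by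
      rw [← sum_add_distrib]; simp
    rw [e2, e1]; ring
  have hO1r : (O1.card : ℝ) ≤ (𝓛.card : ℝ) := by exact_mod_cast hO1c
  have hpos : (1 : ℝ) ≤ (𝓛.card : ℝ) := by
    exact_mod_cast hne.card_pos
  have hr8 : (12 : ℝ) / (r : ℝ) ≤ 3 / 2 := by
    have : (8 : ℝ) ≤ (r : ℝ) := by exact_mod_cast hr
    rw [div_le_iff₀ (by linarith)]
    linarith
  have hmul : (𝓛.card : ℝ) * (4 - 12 / (r : ℝ)) ≥ (𝓛.card : ℝ) * (5 / 2) := by
    apply mul_le_mul_of_nonneg_left _ (by linarith)
    linarith
  have hfin : (A.card : ℝ) + (𝓛.card : ℝ) < (Fl.card : ℝ) := by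
    rw [hFlc, hlive]
    linarith
  exact_mod_cast hfin

end

end Pool.Agent.Helper29_CF.H2
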