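import Mathlib
import Pool.Agent.Helper29_CF.Defs
import Pool.Agent.Helper29_CF.Stmt

/-!
Squad `cf`, module RNDP: rounding with rows for the bad Paschs.
-/

namespace Pool.Agent.Helper29_CF.H2

open Finset Pool.Agent.Helper29_CF

set_option linter.unusedSectionVars false

section

variable {V B : Type} [Fintype V] [DecidableEq V] [Fintype B] [DecidableEq B]

/-- the disjunction in the invariant of the rounding -/
def JDisj (s : B → Finset V) (z : B → ℝ) (𝒞 : Finset (Finset B)) : Prop :=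
  (∃ L ∈ 𝒞, ∃ b ∈ L, z b = 0) ∨ ¬ ClosedFam s (univ.filter (fun b => z b = 1)) 𝒞 ∨
    ∃ y, 5 ≤ deg s (univ.filter (fun b => z b = 1) ∪ 𝒞.biUnion id) y

/-- the invariant of the rounding -/
def JProp (s : B → Finset V) (z : B → ℝ) (𝓛 : Finset (Finset B)) : Prop :=
  ∀ 𝒞 : Finset (Finset B), 𝒞.Nonempty → (∀ L ∈ 𝒞, BadP s L) → ¬ 𝒞 ⊆ 𝓛 → JDisj s z 𝒞

theorem deg_mono (s : B → Finset V) {F F' : Finset B} (h : F ⊆ F') (x : V) :
    deg s F x ≤ deg s F' x := card_le_card (filter_subset_filter _ h)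

theorem closedFam_mono (s : B → Finset V) {K K' : Finset B} (h : K ⊆ K')
    {𝒞 : Finset (Finset B)} (hc : ClosedFam s K' 𝒞) : ClosedFam s K 𝒞 := by
  obtain ⟨e, he⟩ := hc
  exact ⟨e, fun b hb => he b (h hb)⟩

theorem jprop_erase {s : B → Finset V} {z : B → ℝ} {𝓛 : Finset (Finset B)} {L0 : Finset B}
    (hJ : JProp s z 𝓛)
    (h : ∀ 𝒞 ⊆ 𝓛, (∀ L ∈ 𝒞, BadP s L) → L0 ∈ 𝒞 → JDisj s z 𝒞) :
    JProp s z (𝓛.erase L0) := by
  intro 𝒞 hne hbad hsub
  by_cases h1 : 𝒞 ⊆ 𝓛
  · apply h 𝒞 h1 hbad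
    by_contra h2
    apply hsub
    intro L hL
    exact mem_erase.2 ⟨fun hLL => h2 (hLL ▸ hL), h1 hL⟩
  · exact hJ 𝒞 hne hbad h1

theorem jprop_mono {s : B → Finset V} {z z' : B → ℝ} {𝓛 : Finset (Finset B)}
    (hJ : JProp s z 𝓛) (hz : ∀ b, (z b = 0 ∨ z b = 1) → z' b = z b) : JProp s z' 𝓛 := by
  intro 𝒞 hne hbad hsub
  have hsub1 : univ.filter (fun b => z b = 1) ⊆ univ.filter (fun b => z' b = 1) := by
    intro b hb
    simp only [mem_filter, mem_univ, true_and] at hb ⊢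
    rw [hz b (Or.inr hb), hb]
  rcases hJ 𝒞 hne hbad hsub with ⟨L, hL, b, hb, h0⟩ | h | ⟨y, hy⟩
  · exact Or.inl ⟨L, hL, b, hb, by rw [hz b (Or.inl h0), h0]⟩
  · exact Or.inr (Or.inl (fun hcl => h (closedFam_mono s hsub1 hcl)))
  · exact Or.inr (Or.inr ⟨y, hy.trans (deg_mono s (union_subset_union_left hsub1) y)⟩)

/-- a fixed block touching a family of live Paschs -/
theorem disj_famPts {s : B → Finset V} {𝒞 : Finset (Finset B)} {L : Finset B} (hL : L ∈ 𝒞)
    {b : B} (hb : ¬ Disjoint (s b) (pts s L)) : ¬ Disjoint (s b) (famPts s 𝒞) := by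
  intro h
  apply hb
  exact h.mono_right (subset_biUnion_of_mem (pts s) hL)

theorem declareA {s : B → Finset V} {z : B → ℝ} {𝓛 : Finset (Finset B)} {L0 : Finset B}
    {b b' : B} (hbb : b ≠ b')
    (h : z b = 1 ∧ b ∉ L0 ∧ ¬ Disjoint (s b) (pts s L0) ∧ ∀ L' ∈ 𝓛, b ∉ L')
    (h' : z b' = 1 ∧ b' ∉ L0 ∧ ¬ Disjoint (s b') (pts s L0) ∧ ∀ L' ∈ 𝓛, b' ∉ L')
    {𝒞 : Finset (Finset B)} (hsub : 𝒞 ⊆ 𝓛) (h0 : L0 ∈ 𝒞) : JDisj s z 𝒞 := by
  right; left
  rintro ⟨e, he⟩
  have key : ∀ b, (z b = 1 ∧ b ∉ L0 ∧ ¬ Disjoint (s b) (pts s L0) ∧ ∀ L' ∈ 𝓛, b ∉ L') →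
      some b = e := by
    intro b hb
    rcases he b (by simp [hb.1]) (disj_famPts h0 hb.2.2.1) with ⟨L, hL, hbL⟩ | ⟨h1, _⟩
    · exact absurd hbL (hb.2.2.2 L (hsub hL))
    · exact h1
  have e1 := key b h
  have e2 := key b' h'
  exact hbb (Option.some_injective _ (e1.trans e2.symm))

theorem declareB {s : B → Finset V} {z : B → ℝ} {𝓛 : Finset (Finset B)}
    (hbadL : ∀ L ∈ 𝓛, BadP s L) {L0 L1 : Finset B} (hL0 : L0 ∈ 𝓛) (hL1 : L1 ∈ 𝓛)
    (hne : L0 ≠ L1) {ℓ : B} (hℓ : ℓ ∈ L1) (hℓ1 : z ℓ = 1)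
    (hℓd : ¬ Disjoint (s ℓ) (pts s L0)) (hx0 : HasExit s z 𝓛 L0) (hx1 : HasExit s z 𝓛 L1)
    {𝒞 : Finset (Finset B)} (hsub : 𝒞 ⊆ 𝓛) (h0 : L0 ∈ 𝒞) : JDisj s z 𝒞 := by
  by_cases hcl : ClosedFam s (univ.filter (fun b => z b = 1)) 𝒞
  swap
  · exact Or.inr (Or.inl hcl)
  right; right
  obtain ⟨e, he⟩ := hcl
  obtain ⟨g1, hg1z, hg1L, hg1d, hg1n⟩ := hx0
  obtain ⟨g2, hg2z, hg2L, hg2d, hg2n⟩ := hx1
  have key : ∀ b, z b = 1 → ¬ Disjoint (s b) (famPts s 𝒞) → (∀ L' ∈ 𝓛, b ∉ L') →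
      some b = e ∧ (s b ∩ famPts s 𝒞).card = 1 := by
    intro b hb hd hn
    rcases he b (by simp [hb]) hd with ⟨L, hL, hbL⟩ | h1
    · exact absurd hbL (hn L (hsub hL))
    · exact h1
  have k1 := key g1 hg1z (disj_famPts h0 hg1d) hg1n
  -- ℓ is a line of a member, which is L1
  have hL1C : L1 ∈ 𝒞 := by
    rcases he ℓ (by simp [hℓ1]) (disj_famPts h0 hℓd) with ⟨L, hL, hbL⟩ | ⟨h1, _⟩
    · by_cases hLL : L = L1
      · exact hLL ▸ hL
      · exact absurd hℓ (disjoint_left.1 ((hbadL L (hsub hL)).2.2 L1 (hbadL L1 hL1).1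
          (Ne.symm hLL)) hbL)
    · exfalso
      have : ℓ = g1 := Option.some_injective _ (h1.trans k1.1.symm)
      exact hg1n L1 hL1 (this ▸ hℓ)
  have k2 := key g2 hg2z (disj_famPts hL1C hg2d) hg2n
  have hgg : g1 = g2 := Option.some_injective _ (k1.1.trans k2.1.symm)
  subst hgg
  obtain ⟨y, hy⟩ := card_eq_one.1 k1.2
  have hmem : ∀ L ∈ 𝒞, ¬ Disjoint (s g1) (pts s L) → y ∈ s g1 ∧ y ∈ pts s L := by
    intro L hL hd
    rw [not_disjoint_iff] at hd
    obtain ⟨w, hw1, hw2⟩ := hd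
    have : w ∈ s g1 ∩ famPts s 𝒞 := mem_inter.2 ⟨hw1, mem_biUnion.2 ⟨L, hL, hw2⟩⟩
    rw [hy, mem_singleton] at this
    subst this
    exact ⟨hw1, hw2⟩
  have m0 := hmem L0 h0 hg1d
  have m1 := hmem L1 hL1C hg2d
  refine ⟨y, ?_⟩
  -- the blocks of L0 and L1 at y, and g1
  have d2 : ∀ L, Pasch s L → y ∈ pts s L → deg s L y = 2 := by
    intro L hL hyL
    rcases hL.2.2.2 y with h | h
    · exfalso
      obtain ⟨b, hb, hyb⟩ := mem_biUnion.1 hyL
      rw [deg, card_eq_zero] at h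
      have : b ∈ L.filter (fun b => y ∈ s b) := mem_filter.2 ⟨hb, hyb⟩
      rw [h] at this
      simp at this
    · exact h
  have e0 := d2 L0 (hbadL L0 hL0).1 m0.2
  have e1 := d2 L1 (hbadL L1 hL1).1 m1.2
  have hdis : Disjoint L0 L1 := (hbadL L0 hL0).2.2 L1 (hbadL L1 hL1).1 (Ne.symm hne)
  have hsubset : insert g1 (L0.filter (fun b => y ∈ s b) ∪ L1.filter (fun b => y ∈ s b)) ⊆
      (univ.filter (fun b => z b = 1) ∪ 𝒞.biUnion id).filter (fun b => y ∈ s b) := by
    intro b hb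
    rw [mem_insert, mem_union, mem_filter, mem_filter] at hb
    rw [mem_filter, mem_union]
    rcases hb with h | h | h
    · subst h
      exact ⟨Or.inl (by simp [hg1z]), m0.1⟩
    · exact ⟨Or.inr (mem_biUnion.2 ⟨L0, h0, h.1⟩), h.2⟩
    · exact ⟨Or.inr (mem_biUnion.2 ⟨L1, hL1C, h.1⟩), h.2⟩
  have hcard := card_le_card hsubset
  rw [card_insert_of_notMem, card_union_of_disjoint] at hcard
  · unfold deg at e0 e1 ⊢
    omega
  · exact disjoint_filter_filter hdis
  · rw [mem_union, mem_filter, mem_filter]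
    rintro (h | h)
    · exact hg1n L0 hL0 h.1
    · exact hg1n L1 hL1 h.1

/-- one rounding step keeps the state -/
theorem rstate_step {s : B → Finset V} {z z' : B → ℝ} (h : RState s 3 z)
    (hbd : ∀ b, 0 ≤ z' b ∧ z' b ≤ 1) (hz : ∀ b, (z b = 0 ∨ z b = 1) → z' b = z b)
    (hstar : ∀ x, 3 ≤ deg s (univ.filter (fun b => z b ≠ 0 ∧ z b ≠ 1)) x →
      ∑ b ∈ univ.filter (fun b => x ∈ s b), z' b = ∑ b ∈ univ.filter (fun b => x ∈ s b), z b) :
    RState s 3 z' := by
  have hfl : univ.filter (fun b => z' b ≠ 0 ∧ z' b ≠ 1) ⊆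
      univ.filter (fun b => z b ≠ 0 ∧ z b ≠ 1) := by
    intro b hb
    simp only [mem_filter, mem_univ, true_and] at hb ⊢
    constructor
    · intro h0; exact hb.1 (by rw [hz b (Or.inl h0), h0])
    · intro h1; exact hb.2 (by rw [hz b (Or.inr h1), h1])
  have hone : univ.filter (fun b => z b = 1) ⊆ univ.filter (fun b => z' b = 1) := by
    intro b hb
    simp only [mem_filter, mem_univ, true_and] at hb ⊢
    rw [hz b (Or.inr hb), hb]
  refine ⟨hbd, ?_, ?_⟩
  · intro x hx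
    have hx' := hx.trans (deg_mono s hfl x)
    rw [hstar x hx']
    exact h.2.1 x hx'
  · intro x hx
    by_cases hin : deg s (univ.filter (fun b => z b ≠ 0 ∧ z b ≠ 1)) x ≤ 2
    · obtain ⟨h1, h2⟩ := h.2.2 x hin
      refine ⟨h1.trans (Nat.add_le_add_right (deg_mono s hone x) 1), ?_⟩
      refine le_trans ?_ h2
      -- disjoint unions
      have u1 : deg s (univ.filter (fun b => z' b = 1)) x +
          deg s (univ.filter (fun b => z' b ≠ 0 ∧ z' b ≠ 1)) x =
          deg s (univ.filter (fun b => z' b ≠ 0)) x := by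
        unfold deg
        rw [← card_union_of_disjoint]
        · congr 1
          ext b
          simp only [mem_union, mem_filter, mem_univ, true_and]
          constructor
          · rintro (⟨h1, h2⟩ | ⟨h1, h2⟩)
            · exact ⟨by rw [h1]; norm_num, h2⟩
            · exact ⟨h1.1, h2⟩
          · rintro ⟨h1, h2⟩
            by_cases h3 : z' b = 1
            · exact Or.inl ⟨h3, h2⟩
            · exact Or.inr ⟨⟨h1, h3⟩, h2⟩
        · rw [disjoint_left]
          intro b hb hb'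
          simp only [mem_filter, mem_univ, true_and] at hb hb'
          exact hb'.1.2 hb.1
      have u2 : deg s (univ.filter (fun b => z b = 1)) x +
          deg s (univ.filter (fun b => z b ≠ 0 ∧ z b ≠ 1)) x =
          deg s (univ.filter (fun b => z b ≠ 0)) x := by
        unfold deg
        rw [← card_union_of_disjoint]
        · congr 1
          ext b
          simp only [mem_union, mem_filter, mem_univ, true_and]
          constructor
          · rintro (⟨h1, h2⟩ | ⟨h1, h2⟩)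
            · exact ⟨by rw [h1]; norm_num, h2⟩
            · exact ⟨h1.1, h2⟩
          · rintro ⟨h1, h2⟩
            by_cases h3 : z b = 1
            · exact Or.inl ⟨h3, h2⟩
            · exact Or.inr ⟨⟨h1, h3⟩, h2⟩
        · rw [disjoint_left]
          intro b hb hb'
          simp only [mem_filter, mem_univ, true_and] at hb hb'
          exact hb'.1.2 hb.1
      rw [u1, u2]
      apply deg_mono
      intro b hb
      simp only [mem_filter, mem_univ, true_and] at hb ⊢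
      intro h0
      exact hb (by rw [hz b (Or.inl h0), h0])
    · push Not at hin
      have hs := hstar x hin
      rw [h.2.1 x hin] at hs
      -- split the sum
      set O : Finset B := (univ.filter (fun b => z' b = 1)).filter (fun b => x ∈ s b) with hO
      set Φ : Finset B := (univ.filter (fun b => z' b ≠ 0 ∧ z' b ≠ 1)).filter
        (fun b => x ∈ s b) with hΦ
      have hsplit : ∑ b ∈ univ.filter (fun b => x ∈ s b), z' b = (O.card : ℝ) + ∑ b ∈ Φ, z' b := by
        have e1 : (O.card : ℝ) = ∑ b ∈ O, z' b := by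
          rw [sum_congr rfl (fun b hb => (mem_filter.1 (mem_filter.1 hb).1).2), sum_const,
            nsmul_eq_mul, mul_one]
        rw [e1, ← sum_union]
        · symm
          apply sum_subset
          · intro b hb
            simp only [hO, hΦ, mem_union, mem_filter, mem_univ, true_and] at hb ⊢
            rcases hb with h | h
            · exact h.2
            · exact h.2
          · intro b hb hnb
            simp only [hO, hΦ, mem_union, mem_filter, mem_univ, true_and, not_or] at hb hnb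
            by_contra h0
            have h1 : z' b ≠ 1 := fun h1 => hnb.1 ⟨h1, hb⟩
            exact hnb.2 ⟨⟨h0, h1⟩, hb⟩
        · rw [disjoint_left]
          intro b hb hb'
          simp only [hO, hΦ, mem_filter, mem_univ, true_and] at hb hb'
          exact hb'.1.2 hb.1
      rw [hsplit] at hs
      have hΦ2 : Φ.card ≤ 2 := hx
      have hpos : ∀ b ∈ Φ, 0 < z' b ∧ z' b < 1 := by
        intro b hb
        have hb' := (mem_filter.1 (mem_filter.1 hb).1).2
        exact ⟨lt_of_le_of_ne (hbd b).1 (Ne.symm hb'.1), lt_of_le_of_ne (hbd b).2 hb'.2⟩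
      have hres : 3 ≤ O.card + 1 ∧ O.card + Φ.card ≤ 3 + 1 := by
        have hcases : Φ.card = 0 ∨ Φ.card = 1 ∨ Φ.card = 2 := by omega
        rcases hcases with h0 | h1 | h2
        · rw [card_eq_zero] at h0
          rw [h0] at hs ⊢
          simp only [sum_empty, add_zero] at hs
          have : O.card = 3 := by exact_mod_cast hs
          rw [this]; simp
        · exfalso
          obtain ⟨b, hb⟩ := card_eq_one.1 h1
          rw [hb, sum_singleton] at hs
          have hp := hpos b (by rw [hb]; exact mem_singleton_self b)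
          have l1 : (O.card : ℝ) < 3 := by push_cast at hs; linarith
          have l2 : (2 : ℝ) < (O.card : ℝ) := by push_cast at hs; linarith
          have l1' : O.card < 3 := by exact_mod_cast l1
          have l2' : 2 < O.card := by exact_mod_cast l2
          omega
        · obtain ⟨b, b', hbb, hb⟩ := card_eq_two.1 h2
          rw [hb, sum_pair hbb] at hs
          have hp := hpos b (by rw [hb]; simp)
          have hp' := hpos b' (by rw [hb]; simp)
          have l1 : (O.card : ℝ) < 3 := by push_cast at hs; linarith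
          have l2 : (1 : ℝ) < (O.card : ℝ) := by push_cast at hs; linarith
          have l1' : O.card < 3 := by exact_mod_cast l1
          have l2' : 1 < O.card := by exact_mod_cast l2
          omega
      exact hres

theorem rnd_main (hStep : StepStmt) (hRFin : RFinStmt) (h7 : Cnt7Stmt) (h8 : Cnt8Stmt)
    (s : B → Finset V) (r : ℕ) (hr : 7 ≤ r) (hc : ∀ b, (s b).card = 3) :
    ∀ (n : ℕ) (z : B → ℝ) (𝓛 : Finset (Finset B)),
      (univ.filter (fun b => z b ≠ 0 ∧ z b ≠ 1)).card + 𝓛.card ≤ n → RState s 3 z →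
      (∀ L ∈ 𝓛, BadP s L) → (∀ L ∈ 𝓛, ∑ b ∈ L, z b = 12 / (r : ℝ)) → JProp s z 𝓛 →
      ∃ K : Finset B, (∀ x, 2 ≤ deg s K x ∧ deg s K x ≤ 4) ∧
        ∀ 𝒞 : Finset (Finset B), 𝒞.Nonempty → (∀ L ∈ 𝒞, BadP s L ∧ L ⊆ K) →
          ¬ ClosedFam s K 𝒞 := by
  intro n
  induction n with
  | zero =>
    intro z 𝓛 hn hR hbad hrow hJ
    have h𝓛 : 𝓛 = ∅ := by
      rw [← card_eq_zero]; omega
    subst h𝓛
    obtain ⟨K, hK1, hK0, hKd⟩ := hRFin s 3 z hc hR
    refine ⟨K, fun x => ⟨by have := (hKd x).1; omega, by have := (hKd x).2; omega⟩, ?_⟩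
    intro 𝒞 hne hbadC hcl
    have hsubK : univ.filter (fun b => z b = 1) ⊆ K := by
      intro b hb; exact hK1 b (mem_filter.1 hb).2
    rcases hJ 𝒞 hne (fun L hL => (hbadC L hL).1) (fun hsub => by
      obtain ⟨L, hL⟩ := hne
      exact absurd (hsub hL) (notMem_empty L)) with ⟨L, hL, b, hb, h0⟩ | h | ⟨y, hy⟩
    · exact hK0 b h0 ((hbadC L hL).2 hb)
    · exact h (closedFam_mono s hsubK hcl)
    · have : deg s (univ.filter (fun b => z b = 1) ∪ 𝒞.biUnion id) y ≤ deg s K y := by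
        apply deg_mono
        apply union_subset hsubK
        intro b hb
        obtain ⟨L, hL, hbL⟩ := mem_biUnion.1 hb
        exact (hbadC L hL).2 hbL
      have := (hKd y).2
      omega
  | succ n ih =>
    intro z 𝓛 hn hR hbad hrow hJ
    by_cases hempty : 𝓛 = ∅
    · subst hempty
      obtain ⟨K, hK1, hK0, hKd⟩ := hRFin s 3 z hc hR
      refine ⟨K, fun x => ⟨by have := (hKd x).1; omega, by have := (hKd x).2; omega⟩, ?_⟩
      intro 𝒞 hne hbadC hcl
      have hsubK : univ.filter (fun b => z b = 1) ⊆ K := by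
        intro b hb; exact hK1 b (mem_filter.1 hb).2
      rcases hJ 𝒞 hne (fun L hL => (hbadC L hL).1) (fun hsub => by
        obtain ⟨L, hL⟩ := hne
        exact absurd (hsub hL) (notMem_empty L)) with ⟨L, hL, b, hb, h0⟩ | h | ⟨y, hy⟩
      · exact hK0 b h0 ((hbadC L hL).2 hb)
      · exact h (closedFam_mono s hsubK hcl)
      · have : deg s (univ.filter (fun b => z b = 1) ∪ 𝒞.biUnion id) y ≤ deg s K y := by
          apply deg_mono
          apply union_subset hsubK
          intro b hb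
          obtain ⟨L, hL, hbL⟩ := mem_biUnion.1 hb
          exact (hbadC L hL).2 hbL
        have := (hKd y).2
        omega
    · -- declaring a Pasch
      have hdecl : ∀ L0 ∈ 𝓛, (∀ 𝒞 ⊆ 𝓛, (∀ L ∈ 𝒞, BadP s L) → L0 ∈ 𝒞 → JDisj s z 𝒞) →
          ∃ K : Finset B, (∀ x, 2 ≤ deg s K x ∧ deg s K x ≤ 4) ∧
            ∀ 𝒞 : Finset (Finset B), 𝒞.Nonempty → (∀ L ∈ 𝒞, BadP s L ∧ L ⊆ K) →
              ¬ ClosedFam s K 𝒞 := by
        intro L0 hL0 h
        have hcd : (𝓛.erase L0).card + 1 = 𝓛.card := card_erase_add_one hL0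
        exact ih z (𝓛.erase L0) (by omega) hR (fun L hL => hbad L (mem_of_mem_erase hL))
          (fun L hL => hrow L (mem_of_mem_erase hL)) (jprop_erase hJ h)
      by_cases hpos : ∀ L ∈ 𝓛, ∀ b ∈ L, z b ≠ 0
      swap
      · push Not at hpos
        obtain ⟨L0, hL0, b, hb, h0⟩ := hpos
        exact hdecl L0 hL0 (fun 𝒞 _ _ hm => Or.inl ⟨L0, hm, b, hb, h0⟩)
      by_cases hnoA : ∀ L ∈ 𝓛, ∀ b b', b ≠ b' →
          (z b = 1 ∧ b ∉ L ∧ ¬ Disjoint (s b) (pts s L) ∧ ∀ L' ∈ 𝓛, b ∉ L') →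
          ¬ (z b' = 1 ∧ b' ∉ L ∧ ¬ Disjoint (s b') (pts s L) ∧ ∀ L' ∈ 𝓛, b' ∉ L')
      swap
      · have hx : ∃ L ∈ 𝓛, ∃ b b', b ≠ b' ∧
            (z b = 1 ∧ b ∉ L ∧ ¬ Disjoint (s b) (pts s L) ∧ ∀ L' ∈ 𝓛, b ∉ L') ∧
            (z b' = 1 ∧ b' ∉ L ∧ ¬ Disjoint (s b') (pts s L) ∧ ∀ L' ∈ 𝓛, b' ∉ L') := by
          by_contra hcon
          apply hnoA
          intro L hL b b' hbb h1 h2
          exact hcon ⟨L, hL, b, b', hbb, h1, h2⟩
        obtain ⟨L0, hL0, b, b', hbb, h1, h2⟩ := hx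
        exact hdecl L0 hL0 (fun 𝒞 hsub _ hm => declareA hbb h1 h2 hsub hm)
      by_cases hnoB : ∀ L ∈ 𝓛, ∀ L' ∈ 𝓛, L ≠ L' → ∀ ℓ ∈ L', z ℓ = 1 →
          ¬ Disjoint (s ℓ) (pts s L) → ¬ (HasExit s z 𝓛 L ∧ HasExit s z 𝓛 L')
      swap
      · have hx : ∃ L ∈ 𝓛, ∃ L' ∈ 𝓛, L ≠ L' ∧ ∃ ℓ ∈ L', z ℓ = 1 ∧
            ¬ Disjoint (s ℓ) (pts s L) ∧ HasExit s z 𝓛 L ∧ HasExit s z 𝓛 L' := by
          by_contra hcon
          apply hnoB
          intro L hL L' hL' hne ℓ hℓ h1 h2 h3
          exact hcon ⟨L, hL, L', hL', hne, ℓ, hℓ, h1, h2, h3.1, h3.2⟩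
        obtain ⟨L0, hL0, L1, hL1, hne, ℓ, hℓ, h1, h2, h3, h4⟩ := hx
        exact hdecl L0 hL0 (fun 𝒞 hsub _ hm =>
          declareB hbad hL0 hL1 hne hℓ h1 h2 h3 h4 hsub hm)
      -- counting
      have hcnt : CntHyp s r z 𝓛 := by
        refine ⟨hc, hR.1, ?_, hbad, hpos, hrow, hnoA, hnoB⟩
        intro x hx
        have := hR.2.1 x hx
        rw [this]; norm_num
      have hne𝓛 : 𝓛.Nonempty := nonempty_iff_ne_empty.2 hempty
      have hlt : (univ.filter (fun x => 3 ≤ deg s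
          (univ.filter (fun b => z b ≠ 0 ∧ z b ≠ 1)) x)).card + 𝓛.card <
          (univ.filter (fun b => z b ≠ 0 ∧ z b ≠ 1)).card := by
        rcases Nat.lt_or_ge r 8 with h | h
        · have : r = 7 := by omega
          subst this
          exact h7 s z 𝓛 hcnt hne𝓛
        · exact h8 s r z 𝓛 h hcnt hne𝓛
      set R : Finset (Finset B) := (univ.filter (fun x => 3 ≤ deg s
          (univ.filter (fun b => z b ≠ 0 ∧ z b ≠ 1)) x)).image
            (fun x => univ.filter (fun b => x ∈ s b)) ∪ 𝓛 with hRdef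
      have hRc : R.card < (univ.filter (fun b => z b ≠ 0 ∧ z b ≠ 1)).card := by
        refine lt_of_le_of_lt (card_union_le _ _) (lt_of_le_of_lt ?_ hlt)
        exact Nat.add_le_add_right card_image_le _
      obtain ⟨z', hbd', hfix', hsum', hfl'⟩ := hStep z R hR.1 hRc
      apply ih z' 𝓛 (by omega)
      · apply rstate_step hR hbd' hfix'
        intro x hx
        apply hsum'
        rw [hRdef, mem_union]
        left
        exact mem_image.2 ⟨x, by simpa using hx, rfl⟩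
      · exact hbad
      · intro L hL
        rw [hsum' L (by rw [hRdef, mem_union]; exact Or.inr hL)]
        exact hrow L hL
      · exact jprop_mono hJ hfix'

end

/-- RNDP -/
theorem rndp (hStep : StepStmt) (hRFin : RFinStmt) (h7 : Cnt7Stmt) (h8 : Cnt8Stmt) :
    RndPStmt := by
  intro V B _ _ _ _ s r hr hc hdeg
  classical
  have hr7 : (7 : ℝ) ≤ (r : ℝ) := by exact_mod_cast hr
  have hz0 : (3 : ℝ) / (r : ℝ) ≠ 0 := by positivity
  have hz1 : (3 : ℝ) / (r : ℝ) ≠ 1 := by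
    intro h
    rw [div_eq_one_iff_eq (by linarith)] at h
    linarith
  have hfl : (univ.filter (fun _ : B => (3 : ℝ) / (r : ℝ) ≠ 0 ∧ (3 : ℝ) / (r : ℝ) ≠ 1)) =
      (univ : Finset B) := by
    ext b; simp [hz0, hz1]
  apply rnd_main hStep hRFin h7 h8 s r hr hc
    ((univ.filter (fun _ : B => (3 : ℝ) / (r : ℝ) ≠ 0 ∧ (3 : ℝ) / (r : ℝ) ≠ 1)).card +
      ((univ : Finset (Finset B)).filter (fun L => BadP s L)).card)
    (fun _ => 3 / (r : ℝ)) ((univ : Finset (Finset B)).filter (fun L => BadP s L)) le_rfl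
  · refine ⟨fun _ => ⟨by positivity, ?_⟩, ?_, ?_⟩
    · rw [div_le_one (by linarith)]; linarith
    · intro x _
      rw [sum_const, nsmul_eq_mul]
      have : (univ.filter (fun b => x ∈ s b)).card = r := hdeg x
      rw [this]
      field_simp
      norm_num
    · intro x hx
      exfalso
      rw [hfl, hdeg x] at hx
      omega
  · intro L hL
    exact (mem_filter.1 hL).2
  · intro L hL
    have := (mem_filter.1 hL).2.1.1
    rw [sum_const, this, nsmul_eq_mul]
    push_cast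
    ring
  · intro 𝒞 _ hbad hsub
    exfalso
    apply hsub
    intro L hL
    exact mem_filter.2 ⟨mem_univ L, hbad L hL⟩

end Pool.Agent.Helper29_CF.H2
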